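import Pool.Agent.Helper58.R5.Main

/-!
# MP_7ef5a1_co: a vertex of minimum degree with few neighbours of large degree
-/

set_option autoImplicit false
open Classical

namespace Pool.Agent.Results.MP_7ef5a1_co.FewLargeNeighbours

theorem result :
    ∀ (m : ℕ) (H : SimpleGraph (Fin m)), 4 ≤ m →
      (∀ S : Finset (Fin m), S.card ≤ 2 → (H.induce {v | v ∉ S}).Connected) →
      H.CliqueFree 3 →
      ∀ (v : Fin m) (I : Finset (Fin m)) (τ k : ℕ), H.degree v = H.minDegree →
        (∀ x ∈ I, x ≠ v ∧ ¬ H.Adj v x ∧ ∀ y, H.Adj v y → ¬ H.Adj y x) →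
        (∀ x ∈ I, ∀ y ∈ I, ¬ H.Adj x y) →
        τ = ((Finset.univ : Finset (Fin m)).filter
          (fun x => x ≠ v ∧ ∀ u, H.Adj x u ↔ H.Adj v u)).card →
        k = min ((Finset.univ : Finset (Fin m)).filter
          (fun y => H.Adj v y ∧ H.degree y ≤ H.minDegree + τ)).card
            (H.minDegree - 1 - I.card) →
        (((Finset.univ : Finset (Fin m)).filter
            (fun y => H.Adj v y ∧ H.minDegree + τ < H.degree y)).card ≤ τ + I.card + 1 ∨
          ∀ S : Finset (Fin m), (∀ a ∈ S, ∀ b ∈ S, ¬ H.Adj a b) →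
            H.minDegree + τ + I.card < S.card → S.card + k < 2 * H.minDegree →
            ¬ ∃ g : Fin m → Fin m, (∀ x, x ∉ S → ∀ y, y ∉ S → g x = g y → x = y) ∧
              (∀ x, x ∉ S → ¬ H.Adj v (g x) ∧ g x ∉ I ∧
                ¬ ∀ u, H.Adj (g x) u ↔ H.Adj v u) ∧
              (∀ x, x ∉ S → ∀ y, y ∉ S → H.Adj x y → H.Adj (g x) (g y)) ∧
              (∀ x, x ∉ S → ∀ s ∈ S, H.Adj x s →
                ∃ c, (H.Adj v c ∨ c ∈ I) ∧ H.Adj c (g x))) →
      sInf {d : ℕ | ∃ (n : ℕ) (G : SimpleGraph (Fin n)),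
        (∀ c : Sym2 (Fin n) → Fin 2, ∃ i : Fin 2, ∃ f : Fin m → Fin n,
          Function.Injective f ∧
          ∀ u v : Fin m, H.Adj u v → G.Adj (f u) (f v) ∧ c s(f u, f v) = i) ∧
        (∀ (S : Set (Fin n)) (G' : SimpleGraph (Fin n)), G' ≤ G →
          (∀ a b : Fin n, G'.Adj a b → a ∈ S ∧ b ∈ S) →
          (S ≠ Set.univ ∨ G' ≠ G) →
          ∃ c : Sym2 (Fin n) → Fin 2, ∀ i : Fin 2, ∀ f : Fin m → Fin n,
            Function.Injective f → (∀ x : Fin m, f x ∈ S) →
            ∃ u v : Fin m, H.Adj u v ∧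
              ¬ (G'.Adj (f u) (f v) ∧ c s(f u, f v) = i)) ∧
        G.minDegree = d} = 2 * (H.minDegree - 1) + 1 := by
  intro m H hm h3 htf v I τ k hv hI hII hτ hk hc
  refine Pool.Agent.Helper58.R5.main_far H hm h3 htf (Or.inr ⟨v, I, τ, k, hv, hI, hII, hτ, hk, ?_⟩)
  rcases hc with h1 | h2
  · intro S _ hS1 hS2
    exfalso
    have hsum : ((Finset.univ : Finset (Fin m)).filter
          (fun y => H.Adj v y ∧ H.degree y ≤ H.minDegree + τ)).card +
        ((Finset.univ : Finset (Fin m)).filter
            (fun y => H.Adj v y ∧ H.minDegree + τ < H.degree y)).card = H.degree v := by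
      rw [← SimpleGraph.card_neighborFinset_eq_degree, ← Finset.card_union_of_disjoint]
      · congr 1
        ext y
        simp only [Finset.mem_union, Finset.mem_filter, Finset.mem_univ, true_and,
          SimpleGraph.mem_neighborFinset]
        constructor
        · rintro (h | h)
          · exact h.1
          · exact h.1
        · intro h
          rcases Nat.lt_or_ge (H.minDegree + τ) (H.degree y) with h' | h'
          · exact Or.inr ⟨h, h'⟩
          · exact Or.inl ⟨h, h'⟩
      · rw [Finset.disjoint_left]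
        intro y hy hy'
        simp only [Finset.mem_filter, Finset.mem_univ, true_and] at hy hy'
        omega
    rcases Nat.le_total ((Finset.univ : Finset (Fin m)).filter
          (fun y => H.Adj v y ∧ H.degree y ≤ H.minDegree + τ)).card
            (H.minDegree - 1 - I.card) with h | h
    · rw [min_eq_left h] at hk
      omega
    · rw [min_eq_right h] at hk
      omega
  · exact h2

end Pool.Agent.Results.MP_7ef5a1_co.FewLargeNeighbours
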