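import Pool.Agent.Helper58.R4.Main

/-!
# MP_7ef5a1_co: 3-connected triangle-free graphs with a vertex of minimum degree on no 4-cycle
-/

set_option autoImplicit false
open Classical

namespace Pool.Agent.Results.MP_7ef5a1_co.NoFourCycleVertex

theorem result :
    ∀ (m : ℕ) (H : SimpleGraph (Fin m)), 4 ≤ m →
      (∀ S : Finset (Fin m), S.card ≤ 2 → (H.induce {v | v ∉ S}).Connected) →
      H.CliqueFree 3 →
      (∃ v : Fin m, H.degree v = H.minDegree ∧
        ∀ z, z ≠ v → ∀ a b, H.Adj v a → H.Adj v b → H.Adj z a → H.Adj z b → a = b) →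
      sInf {d : ℕ | ∃ (n : ℕ) (G : SimpleGraph (Fin n)),
        (∀ c : Sym2 (Fin n) → Fin 2, ∃ i : Fin 2, ∃ f : Fin m → Fin n,
          Function.Injective f ∧
          ∀ u v : Fin m, H.Adj u v → G.Adj (f u) (f v) ∧ c s(f u, f v) = i) ∧
        (∀ (S : Set (Fin n)) (G' : SimpleGraph (Fin n)), G' ≤ G →
          (∀ a b : Fin n, G'.Adj a b → a ∈ S ∧ b ∈ S) →
          (S ≠ Set.univ ∨ G' ≠ G) →
          ∃ c : Sym2 (Fin n) → Fin 2, ∀ i : Fin 2, ∀ f : Fin m → Fin n,
            Function.Injective f → (∀ x : Fin m, f x ∈ S) →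
            ∃ u v : Fin m, H.Adj u v ∧
              ¬ (G'.Adj (f u) (f v) ∧ c s(f u, f v) = i)) ∧
        G.minDegree = d} = 2 * (H.minDegree - 1) + 1 := by
  rintro m H hm h3 htf ⟨v, hv, hno⟩
  exact Pool.Agent.Helper58.R4.main_no4 H hm h3 htf v hv hno

end Pool.Agent.Results.MP_7ef5a1_co.NoFourCycleVertex
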